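import Mathlib

set_option autoImplicit false

open Finset

namespace Pool.Agent.Work.MP_2869d0_nt

/-- The Apery polynomial `A_n(x) = ∑_{k=0}^n C(n,k)^2 C(n+k,k)^2 x^k`,
evaluated at an element `x` of a commutative ring `R`. -/
def aperyPoly {R : Type*} [CommRing R] (n : ℕ) (x : R) : R :=
  ∑ k ∈ range (n + 1), (n.choose k : R) ^ 2 * ((n + k).choose k : R) ^ 2 * x ^ k

/-- The polynomial `D_n(x) = ∑_{k=0}^n C(n,k) C(n+k,k) x^k`,
evaluated at an element `x` of a commutative ring `R`. -/
def delannoyPoly {R : Type*} [CommRing R] (n : ℕ) (x : R) : R :=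
  ∑ k ∈ range (n + 1), (n.choose k : R) * ((n + k).choose k : R) * x ^ k

end Pool.Agent.Work.MP_2869d0_nt
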