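import Mathlib
import Pool.Agent.Work.MP_2869d0_nt.Defs

set_option autoImplicit false

open Finset

namespace Pool.Agent.Work.MP_2869d0_nt

/-- `β k i = C(k,i) C(k+i,i)` as an integer. -/
def bet (k i : ℕ) : ℤ := (k.choose i : ℤ) * ((k + i).choose i : ℤ)

lemma bet_zero (k : ℕ) : bet k 0 = 1 := by simp [bet]

lemma bet_eq_zero {k i : ℕ} (h : k < i) : bet k i = 0 := by
  simp [bet, Nat.choose_eq_zero_of_lt h]

lemma choose_succ_mul (k i : ℕ) :
    ((i : ℤ) + 1) * (k.choose (i + 1) : ℤ) = ((k : ℤ) - i) * (k.choose i : ℤ) := by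
  rcases le_or_gt i k with h | h
  · have := Nat.choose_succ_right_eq k i
    have h2 : ((k.choose (i + 1) * (i + 1) : ℕ) : ℤ) = ((k.choose i * (k - i) : ℕ) : ℤ) := by
      rw [this]
    push_cast [Nat.cast_sub h] at h2
    linarith
  · rw [Nat.choose_eq_zero_of_lt h, Nat.choose_eq_zero_of_lt (by omega)]
    simp

lemma succ_choose_mul (m i : ℕ) :
    ((i : ℤ) + 1) * ((m + 1).choose (i + 1) : ℤ) = ((m : ℤ) + 1) * (m.choose i : ℤ) := by
  have h2 : (((m + 1) * m.choose i : ℕ) : ℤ) = (((m + 1).choose (i + 1) * (i + 1) : ℕ) : ℤ) := by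
    rw [Nat.add_one_mul_choose_eq]
  push_cast at h2
  linarith

/-- `(m + 1 - i) C(m+1, i) = (m + 1) C(m, i)`. -/
lemma sub_choose_mul (m i : ℕ) :
    ((m : ℤ) + 1 - i) * ((m + 1).choose i : ℤ) = ((m : ℤ) + 1) * (m.choose i : ℤ) := by
  rcases i with _ | i
  · simp
  · have h1 := succ_choose_mul m i
    have h2 := choose_succ_mul m i
    have h3 : ((m + 1).choose (i + 1) : ℤ) = (m.choose i : ℤ) + (m.choose (i + 1) : ℤ) := by
      exact_mod_cast Nat.choose_succ_succ m i
    push_cast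
    have h4 : (((i : ℤ) + 1)) ≠ 0 := by positivity
    have h5 : ((m : ℤ) + 1 - (i + 1)) * ((m + 1).choose (i + 1) : ℤ)
      = ((m : ℤ) + 1) * ((m + 1).choose (i + 1) : ℤ)
        - (i + 1) * ((m + 1).choose (i + 1) : ℤ) := by ring
    rw [h5, h1, h3]
    ring

lemma bet_succ (k i : ℕ) :
    ((i : ℤ) + 1) ^ 2 * bet k (i + 1) = ((k : ℤ) - i) * ((k : ℤ) + i + 1) * bet k i := by
  have h1 := choose_succ_mul k i
  have h2 := succ_choose_mul (k + i) i
  simp only [bet]
  have : k + (i + 1) = k + i + 1 := by ring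
  rw [this]
  push_cast at h2
  calc ((i : ℤ) + 1) ^ 2 * ((k.choose (i + 1) : ℤ) * ((k + i + 1).choose (i + 1) : ℤ))
      = (((i : ℤ) + 1) * (k.choose (i + 1) : ℤ)) *
        (((i : ℤ) + 1) * ((k + i + 1).choose (i + 1) : ℤ)) := by ring
    _ = _ := by rw [h1, h2]; ring

/-- The alternating weighted sum. -/
def L (n : ℕ) (f : ℕ → ℤ) : ℤ := ∑ k ∈ range n, (2 * (k : ℤ) + 1) * (-1) ^ k * f k

lemma L_bet (n i : ℕ) :
    L (n + 1) (fun k => bet k i)
      = (-1) ^ n * ((n : ℤ) + 1) * (n.choose i : ℤ) * ((n + 1 + i).choose i : ℤ) := by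
  induction n with
  | zero =>
    rcases i with _ | i
    · simp [L, bet]
    · simp [L, bet]
  | succ n ih =>
    rw [L, sum_range_succ, ← L, ih]
    simp only [bet]
    have h1 := sub_choose_mul n i
    have h2 := sub_choose_mul (n + 1 + i) i
    have h3 : n + 1 + 1 + i = n + 1 + i + 1 := by ring
    rw [h3]
    push_cast at h1 h2 ⊢
    have h2' : ((n : ℤ) + 1 + 1) * ((n + 1 + i + 1).choose i : ℤ)
        = ((n : ℤ) + 1 + i + 1) * ((n + 1 + i).choose i : ℤ) := by linarith
    have e1 : (-1 : ℤ) ^ n * ((n : ℤ) + 1) * (n.choose i : ℤ) * ((n + 1 + i).choose i : ℤ)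
        = (-1) ^ n * (((n : ℤ) + 1) * (n.choose i : ℤ)) * ((n + 1 + i).choose i : ℤ) := by ring
    have e2 : (-1 : ℤ) ^ (n + 1) * ((n : ℤ) + 1 + 1) * ((n + 1).choose i : ℤ) *
          ((n + 1 + i + 1).choose i : ℤ)
        = (-1) ^ (n + 1) * ((n + 1).choose i : ℤ) *
          (((n : ℤ) + 1 + 1) * ((n + 1 + i + 1).choose i : ℤ)) := by ring
    rw [e1, e2, ← h1, h2']
    ring

lemma dvd_L_bet (n i : ℕ) : (n : ℤ) ∣ L n (fun k => bet k i) := by
  rcases n with _ | n
  · simp [L]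
  · rw [L_bet]
    push_cast
    exact ⟨(-1) ^ n * (n.choose i : ℤ) * ((n + 1 + i).choose i : ℤ), by ring⟩

/-- Product coefficients. -/
def dco (i j t : ℕ) : ℤ :=
  ((i + j).choose i : ℤ) * ((i + j - t).choose j : ℤ) * (j.choose t : ℤ)

lemma dco_rec_zero (i j : ℕ) :
    ((i : ℤ) + 1) ^ 2 * dco (i + 1) j 0 = ((i : ℤ) + j + 1) ^ 2 * dco i j 0 := by
  simp only [dco, Nat.sub_zero, Nat.choose_zero_right, Nat.cast_one, mul_one]
  have h1 := succ_choose_mul (i + j) i
  have h2 := sub_choose_mul (i + j) j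
  have e : i + 1 + j = i + j + 1 := by ring
  rw [e]
  push_cast at h1 h2
  have h2' : ((i : ℤ) + 1) * ((i + j + 1).choose j : ℤ)
    = ((i : ℤ) + j + 1) * ((i + j).choose j : ℤ) := by linarith
  calc ((i : ℤ) + 1) ^ 2 * (((i + j + 1).choose (i + 1) : ℤ) * ((i + j + 1).choose j : ℤ))
      = (((i : ℤ) + 1) * ((i + j + 1).choose (i + 1) : ℤ)) *
        (((i : ℤ) + 1) * ((i + j + 1).choose j : ℤ)) := by ring
    _ = _ := by rw [h1, h2']; ring

lemma dco_rec_succ (i j t : ℕ) (ht : t < j) :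
    ((i : ℤ) + 1) ^ 2 * dco (i + 1) j (t + 1) = ((i : ℤ) + j - t) ^ 2 * dco i j (t + 1)
      + (((i : ℤ) + j - t) * ((i : ℤ) + j - t + 1) - i * (i + 1)) * dco i j t := by
  have h1 := succ_choose_mul (i + j) i
  have e : i + 1 + j = i + j + 1 := by ring
  obtain ⟨m, hm⟩ : ∃ m, i + j - t = m + 1 := ⟨i + j - t - 1, by omega⟩
  have hm' : (m : ℤ) = (i : ℤ) + j - t - 1 := by omega
  have e1 : i + j + 1 - (t + 1) = m + 1 := by omega
  have e2 : i + j - (t + 1) = m := by omega
  have h2 := sub_choose_mul m j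
  have h3 := choose_succ_mul j t
  simp only [dco]
  rw [e, e1, e2, hm]
  push_cast at h1 h2 h3
  rw [hm'] at h2
  have h2' : ((i : ℤ) - t) * ((m + 1).choose j : ℤ)
      = ((i : ℤ) + j - t) * (m.choose j : ℤ) := by linarith
  have hpos : ((t : ℤ) + 1) ≠ 0 := by positivity
  apply mul_left_cancel₀ hpos
  have l1 : ((t : ℤ) + 1) * (((i : ℤ) + 1) ^ 2 * (((i + j + 1).choose (i + 1) : ℤ)
      * ((m + 1).choose j : ℤ) * (j.choose (t + 1) : ℤ)))
      = ((i : ℤ) + 1) * (((i : ℤ) + 1) * ((i + j + 1).choose (i + 1) : ℤ))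
        * ((m + 1).choose j : ℤ) * (((t : ℤ) + 1) * (j.choose (t + 1) : ℤ)) := by ring
  have l2 : ((t : ℤ) + 1) * (((i : ℤ) + j - t) ^ 2 * (((i + j).choose i : ℤ)
      * (m.choose j : ℤ) * (j.choose (t + 1) : ℤ))
      + (((i : ℤ) + j - t) * ((i : ℤ) + j - t + 1) - i * (i + 1)) *
        (((i + j).choose i : ℤ) * ((m + 1).choose j : ℤ) * (j.choose t : ℤ)))
      = ((i : ℤ) + j - t) * ((i + j).choose i : ℤ) * (((i : ℤ) + j - t) * (m.choose j : ℤ))
          * (((t : ℤ) + 1) * (j.choose (t + 1) : ℤ))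
        + ((t : ℤ) + 1) * (((i : ℤ) + j - t) * ((i : ℤ) + j - t + 1) - i * (i + 1)) *
        (((i + j).choose i : ℤ) * ((m + 1).choose j : ℤ) * (j.choose t : ℤ)) := by ring
  rw [l1, l2, h1, h3, ← h2']
  ring

lemma bet_mul (k i j : ℕ) :
    bet k i * bet k j = ∑ t ∈ range (j + 1), dco i j t * bet k (i + j - t) := by
  induction i with
  | zero =>
    rw [bet_zero, one_mul, sum_eq_single 0]
    · simp [dco]
    · intro t ht h0
      have : (0 + j - t) < j := by
        have := mem_range.mp ht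
        omega
      simp [dco, Nat.choose_eq_zero_of_lt (show j - t < j by omega)]
    · simp
  | succ i ih =>
    have hpos : (((i : ℤ) + 1) ^ 2) ≠ 0 := by positivity
    apply mul_left_cancel₀ hpos
    rw [← mul_assoc, bet_succ]
    have key : ∀ t ∈ range (j + 1), ((k : ℤ) - i) * ((k : ℤ) + i + 1) *
        (dco i j t * bet k (i + j - t))
        = dco i j t * (((i : ℤ) + j - t + 1) ^ 2 * bet k (i + j - t + 1))
          + dco i j t * (((i : ℤ) + j - t) * ((i : ℤ) + j - t + 1) - i * (i + 1))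
            * bet k (i + j - t) := by
      intro t ht
      have htj : t ≤ i + j := by
        have := mem_range.mp ht
        omega
      have hb := bet_succ k (i + j - t)
      push_cast [Nat.cast_sub htj] at hb
      rw [hb]
      ring
    rw [mul_assoc, ih, mul_sum, sum_congr rfl key, sum_add_distrib, mul_sum]
    -- split the sums
    rw [sum_range_succ' (fun t => dco i j t * (((i : ℤ) + j - t + 1) ^ 2 *
      bet k (i + j - t + 1))), sum_range_succ (fun t => dco i j t *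
      (((i : ℤ) + j - t) * ((i : ℤ) + j - t + 1) - i * (i + 1)) * bet k (i + j - t)),
      sum_range_succ' (fun t => ((i : ℤ) + 1) ^ 2 * (dco (i + 1) j t *
        bet k (i + 1 + j - t)))]
    have hz := dco_rec_zero i j
    have hlast : dco i j j * (((i : ℤ) + j - j) * ((i : ℤ) + j - j + 1) - i * (i + 1))
        * bet k (i + j - j) = 0 := by
      ring
    rw [hlast, add_zero]
    have h0 : ((i : ℤ) + 1) ^ 2 * (dco (i + 1) j 0 * bet k (i + 1 + j - 0))
      = dco i j 0 * (((i : ℤ) + j - (0 : ℕ) + 1) ^ 2 * bet k (i + j - 0 + 1)) := by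
      rw [← mul_assoc, hz]
      have : i + 1 + j - 0 = i + j - 0 + 1 := by omega
      rw [this]
      push_cast
      ring
    rw [h0]
    have hs : ∑ t ∈ range j, ((i : ℤ) + 1) ^ 2 * (dco (i + 1) j (t + 1) *
        bet k (i + 1 + j - (t + 1)))
        = ∑ t ∈ range j, (dco i j (t + 1) * (((i : ℤ) + j - (t + 1 : ℕ) + 1) ^ 2 *
            bet k (i + j - (t + 1) + 1)))
          + ∑ t ∈ range j, (dco i j t * (((i : ℤ) + j - t) * ((i : ℤ) + j - t + 1)
            - i * (i + 1)) * bet k (i + j - t)) := by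
      rw [← sum_add_distrib]
      apply sum_congr rfl
      intro t ht
      have htj := mem_range.mp ht
      have hr := dco_rec_succ i j t htj
      rw [← mul_assoc, hr]
      have e1 : i + 1 + j - (t + 1) = i + j - t := by omega
      have e2 : i + j - (t + 1) + 1 = i + j - t := by omega
      rw [e1, e2]
      push_cast
      ring
    rw [hs]
    ring

end Pool.Agent.Work.MP_2869d0_nt
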