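import Mathlib
import Pool.Agent.Work.MP_2869d0_nt.Basic

set_option autoImplicit false

open Finset Polynomial

namespace Pool.Agent.Work.MP_2869d0_nt

/-- The additive group generated by the functions `k ↦ C(k,i) C(k+i,i)`. -/
def M : AddSubgroup (ℕ → ℤ) :=
  AddSubgroup.closure (Set.range fun i : ℕ => fun k : ℕ => bet k i)

lemma bet_mem (i : ℕ) : (fun k => bet k i) ∈ M :=
  AddSubgroup.subset_closure ⟨i, rfl⟩

lemma const_mul_mem (c : ℤ) {f : ℕ → ℤ} (hf : f ∈ M) : (fun k => c * f k) ∈ M := by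
  have := M.zsmul_mem hf c
  convert this using 1
  ext k
  simp

lemma sum_mem' {ι : Type*} (s : Finset ι) (f : ι → ℕ → ℤ) (h : ∀ i ∈ s, f i ∈ M) :
    (fun k => ∑ i ∈ s, f i k) ∈ M := by
  have := M.sum_mem (t := s) (f := f) h
  convert this using 1
  ext k
  simp

lemma bet_mul_mem (i j : ℕ) : (fun k => bet k i * bet k j) ∈ M := by
  have : (fun k => bet k i * bet k j)
      = fun k => ∑ t ∈ range (j + 1), (fun t k => dco i j t * bet k (i + j - t)) t k := by
    ext k
    exact bet_mul k i j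
  rw [this]
  apply sum_mem'
  intro t _
  exact const_mul_mem _ (bet_mem _)

lemma mul_mem' {f g : ℕ → ℤ} (hf : f ∈ M) (hg : g ∈ M) : (fun k => f k * g k) ∈ M := by
  change f * g ∈ M
  unfold M at hf hg
  induction hf, hg using AddSubgroup.closure_induction₂ with
  | mem f g hf hg =>
    obtain ⟨i, rfl⟩ := hf
    obtain ⟨j, rfl⟩ := hg
    exact bet_mul_mem i j
  | zero_left g _ => rw [zero_mul]; exact M.zero_mem
  | zero_right f _ => rw [mul_zero]; exact M.zero_mem
  | add_left f g h _ _ _ h1 h2 => rw [add_mul]; exact M.add_mem h1 h2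
  | add_right f g h _ _ _ h1 h2 => rw [mul_add]; exact M.add_mem h1 h2
  | neg_left f g _ _ h1 => rw [neg_mul]; exact M.neg_mem h1
  | neg_right f g _ _ h1 => rw [mul_neg]; exact M.neg_mem h1

lemma L_add (n : ℕ) (f g : ℕ → ℤ) : L n (f + g) = L n f + L n g := by
  simp only [L, Pi.add_apply, mul_add, sum_add_distrib]

lemma L_neg (n : ℕ) (f : ℕ → ℤ) : L n (-f) = - L n f := by
  simp only [L, Pi.neg_apply, mul_neg, sum_neg_distrib]

lemma dvd_L_of_mem (n : ℕ) {f : ℕ → ℤ} (hf : f ∈ M) : (n : ℤ) ∣ L n f := by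
  unfold M at hf
  induction hf using AddSubgroup.closure_induction with
  | mem f hf =>
    obtain ⟨i, rfl⟩ := hf
    exact dvd_L_bet n i
  | zero => simp [L]
  | add f g _ _ h1 h2 => rw [L_add]; exact dvd_add h1 h2
  | neg f _ h1 => rw [L_neg]; exact (dvd_neg).mpr h1

lemma map_aperyPoly {R S : Type*} [CommRing R] [CommRing S] (φ : R →+* S) (n : ℕ) (x : R) :
    φ (aperyPoly n x) = aperyPoly n (φ x) := by
  simp [aperyPoly, map_sum, map_mul, map_pow, map_natCast]

lemma map_delannoyPoly {R S : Type*} [CommRing R] [CommRing S] (φ : R →+* S) (n : ℕ) (x : R) :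
    φ (delannoyPoly n x) = delannoyPoly n (φ x) := by
  simp [delannoyPoly, map_sum, map_mul, map_pow, map_natCast]

lemma coeff_delannoyPoly (n i : ℕ) : (delannoyPoly n (X : ℤ[X])).coeff i = bet n i := by
  have h : delannoyPoly n (X : ℤ[X]) = ∑ k ∈ range (n + 1), C (bet n k) * X ^ k := by
    unfold delannoyPoly bet
    apply sum_congr rfl
    intro k _
    simp
  rw [h, finsetSum_coeff]
  simp only [coeff_C_mul_X_pow]
  rw [sum_ite_eq]
  split_ifs with hi
  · rfl
  · rw [bet_eq_zero]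
    simpa [mem_range] using hi

lemma coeff_aperyPoly (n i : ℕ) : (aperyPoly n (X : ℤ[X])).coeff i = bet n i * bet n i := by
  have h : aperyPoly n (X : ℤ[X]) = ∑ k ∈ range (n + 1), C (bet n k * bet n k) * X ^ k := by
    unfold aperyPoly bet
    apply sum_congr rfl
    intro k _
    simp
    ring
  rw [h, finsetSum_coeff]
  simp only [coeff_C_mul_X_pow]
  rw [sum_ite_eq]
  split_ifs with hi
  · rfl
  · rw [bet_eq_zero, mul_zero]
    simpa [mem_range] using hi

lemma coeff_weighted_sum (n j : ℕ) (P : ℕ → ℤ[X]) :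
    (∑ k ∈ range n, (2 * (k : ℤ[X]) + 1) * (-1) ^ k * P k).coeff j
      = L n (fun k => (P k).coeff j) := by
  rw [finsetSum_coeff, L]
  apply sum_congr rfl
  intro k _
  have : (2 * (k : ℤ[X]) + 1) * (-1) ^ k = C ((2 * (k : ℤ) + 1) * (-1) ^ k) := by
    simp
  rw [this, coeff_C_mul]

lemma exists_apery_quotient (n : ℕ) : ∃ F : ℤ[X],
    ∑ k ∈ range n, (2 * (k : ℤ[X]) + 1) * (-1) ^ k * aperyPoly k (X : ℤ[X])
      = (n : ℤ[X]) * F := by
  have : C (n : ℤ) ∣ ∑ k ∈ range n, (2 * (k : ℤ[X]) + 1) * (-1) ^ k * aperyPoly k (X : ℤ[X]) := by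
    rw [C_dvd_iff_dvd_coeff]
    intro j
    rw [coeff_weighted_sum]
    apply dvd_L_of_mem
    simp only [coeff_aperyPoly]
    exact bet_mul_mem j j
  obtain ⟨F, hF⟩ := this
  exact ⟨F, by rw [hF]; simp⟩

lemma coeff_delannoy_cube_mem (j : ℕ) :
    (fun k => ((delannoyPoly k (X : ℤ[X])) ^ 3).coeff j) ∈ M := by
  have h2 : ∀ j, (fun k => ((delannoyPoly k (X : ℤ[X])) * (delannoyPoly k (X : ℤ[X]))).coeff j)
      ∈ M := by
    intro j
    have : (fun k => ((delannoyPoly k (X : ℤ[X])) * (delannoyPoly k (X : ℤ[X]))).coeff j)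
      = fun k => ∑ x ∈ antidiagonal j, (fun (x : ℕ × ℕ) k => bet k x.1 * bet k x.2) x k := by
      ext k
      rw [coeff_mul]
      simp only [coeff_delannoyPoly]
    rw [this]
    apply sum_mem'
    intro x _
    exact bet_mul_mem _ _
  have : (fun k => ((delannoyPoly k (X : ℤ[X])) ^ 3).coeff j)
      = fun k => ∑ x ∈ antidiagonal j, (fun (x : ℕ × ℕ) k =>
        ((delannoyPoly k (X : ℤ[X])) * (delannoyPoly k (X : ℤ[X]))).coeff x.1 * bet k x.2) x k := by
    ext k
    rw [pow_succ, pow_two, coeff_mul]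
    simp only [coeff_delannoyPoly]
  rw [this]
  apply sum_mem'
  intro x _
  exact mul_mem' (h2 _) (bet_mem _)

lemma exists_delannoy_quotient (n : ℕ) : ∃ F : ℤ[X],
    ∑ k ∈ range n, (2 * (k : ℤ[X]) + 1) * (-1) ^ k * delannoyPoly k (X : ℤ[X]) ^ 3
      = (n : ℤ[X]) * F := by
  have : C (n : ℤ) ∣
      ∑ k ∈ range n, (2 * (k : ℤ[X]) + 1) * (-1) ^ k * delannoyPoly k (X : ℤ[X]) ^ 3 := by
    rw [C_dvd_iff_dvd_coeff]
    intro j
    rw [coeff_weighted_sum]
    apply dvd_L_of_mem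
    exact coeff_delannoy_cube_mem j
  obtain ⟨F, hF⟩ := this
  exact ⟨F, by rw [hF]; simp⟩

end Pool.Agent.Work.MP_2869d0_nt
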