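import Mathlib
import Pool.Agent.Work.MP_2869d0_nt.Integrality

set_option autoImplicit false

open Finset Polynomial

namespace Pool.Agent.Work.MP_2869d0_nt

/-! ## The Delannoy polynomials at `-1/4` -/

/-- `(n+1-i) β(n+1,i) = (n+1+i) β(n,i)`. -/
lemma bet_shift (n i : ℕ) :
    ((n : ℤ) + 1 - i) * bet (n + 1) i = ((n : ℤ) + 1 + i) * bet n i := by
  have h1 := sub_choose_mul n i
  have h2 := sub_choose_mul (n + i) i
  have e : n + 1 + i = n + i + 1 := by ring
  simp only [bet]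
  rw [e]
  push_cast at h2
  have h2' : ((n : ℤ) + 1) * ((n + i + 1).choose i : ℤ)
      = ((n : ℤ) + i + 1) * ((n + i).choose i : ℤ) := by linarith
  have hpos : ((n : ℤ) + 1) ≠ 0 := by positivity
  apply mul_left_cancel₀ hpos
  calc ((n : ℤ) + 1) * (((n : ℤ) + 1 - i) * (((n + 1).choose i : ℤ) *
        ((n + i + 1).choose i : ℤ)))
      = (((n : ℤ) + 1 - i) * ((n + 1).choose i : ℤ)) *
        (((n : ℤ) + 1) * ((n + i + 1).choose i : ℤ)) := by ring
    _ = _ := by rw [h1, h2']; ring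

lemma bet_three_term (n i : ℕ) :
    ((n : ℤ) + 2) * bet (n + 2) (i + 1) + ((n : ℤ) + 1) * bet n (i + 1)
      = (2 * (n : ℤ) + 3) * (bet (n + 1) (i + 1) + 2 * bet (n + 1) i) := by
  have a0 := bet_succ n i
  have a1 := bet_succ (n + 1) i
  have a2 := bet_succ (n + 2) i
  have b0 := bet_shift n i
  have b1 := bet_shift (n + 1) i
  push_cast at a0 a1 a2 b0 b1
  have hpos : (((i : ℤ) + 1) ^ 2) ≠ 0 := by positivity
  apply mul_left_cancel₀ hpos
  have a0' : ((i : ℤ) + 1) ^ 2 * bet n (i + 1)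
      = ((n : ℤ) - i) * (((n : ℤ) + 1 - i) * bet (n + 1) i) := by
    rw [a0, b0]; ring
  have a2' : ((i : ℤ) + 1) ^ 2 * bet (n + 2) (i + 1)
      = ((n : ℤ) + 3 + i) * (((n : ℤ) + 2 + i) * bet (n + 1) i) := by
    have b1' : ((n : ℤ) + 2 - i) * bet (n + 2) i = ((n : ℤ) + 2 + i) * bet (n + 1) i := by
      have : n + 1 + 1 = n + 2 := by ring
      rw [this] at b1
      linarith
    rw [a2, ← b1']; ring
  calc ((i : ℤ) + 1) ^ 2 * (((n : ℤ) + 2) * bet (n + 2) (i + 1) +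
        ((n : ℤ) + 1) * bet n (i + 1))
      = ((n : ℤ) + 2) * (((i : ℤ) + 1) ^ 2 * bet (n + 2) (i + 1))
        + ((n : ℤ) + 1) * (((i : ℤ) + 1) ^ 2 * bet n (i + 1)) := by ring
    _ = (2 * (n : ℤ) + 3) * (((i : ℤ) + 1) ^ 2 * bet (n + 1) (i + 1)
        + 2 * ((i : ℤ) + 1) ^ 2 * bet (n + 1) i) := by
        rw [a0', a2', a1]; ring
    _ = _ := by ring

lemma delannoy_rec_X (n : ℕ) :
    ((n : ℤ[X]) + 2) * delannoyPoly (n + 2) (X : ℤ[X]) + ((n : ℤ[X]) + 1) * delannoyPoly n X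
      = (2 * (n : ℤ[X]) + 3) * ((1 + 2 * X) * delannoyPoly (n + 1) X) := by
  have e1 : ((n : ℤ[X]) + 2) = C ((n : ℤ) + 2) := by simp
  have e2 : ((n : ℤ[X]) + 1) = C ((n : ℤ) + 1) := by simp
  have e3 : (2 * (n : ℤ[X]) + 3) = C (2 * (n : ℤ) + 3) := by simp
  have e4 : (1 + 2 * X) * delannoyPoly (n + 1) (X : ℤ[X])
      = delannoyPoly (n + 1) (X : ℤ[X]) + C 2 * (X * delannoyPoly (n + 1) (X : ℤ[X])) := by
    simp; ring
  rw [e1, e2, e3, e4]
  ext i
  rw [coeff_add, coeff_C_mul, coeff_C_mul, coeff_C_mul, coeff_add, coeff_C_mul]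
  rcases i with _ | i
  · simp only [coeff_delannoyPoly, bet_zero, mul_coeff_zero, coeff_X_zero]
    ring
  · rw [coeff_X_mul]
    simp only [coeff_delannoyPoly]
    exact bet_three_term n i

lemma delannoy_rec {R : Type*} [CommRing R] (n : ℕ) (x : R) :
    ((n : R) + 2) * delannoyPoly (n + 2) x + ((n : R) + 1) * delannoyPoly n x
      = (2 * (n : R) + 3) * ((1 + 2 * x) * delannoyPoly (n + 1) x) := by
  have h := congrArg (Polynomial.aeval (R := ℤ) x).toRingHom (delannoy_rec_X n)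
  simp only [map_add, map_mul, map_natCast, map_delannoyPoly, map_one, map_ofNat] at h
  simpa using h

/-- Closed form of the cubic sum at `x = -1/4`. -/
lemma delannoy_closed_form {R : Type*} [CommRing R] (y : R) (hy : 4 * y = -1) (n : ℕ) :
    ∑ k ∈ range (n + 1), (2 * (k : R) + 1) * (-1) ^ k * delannoyPoly k y ^ 3
      = (-1) ^ (n + 1) * (4 * ((n : R) + 1) ^ 2) * (delannoyPoly n y * delannoyPoly (n + 1) y *
        (delannoyPoly (n + 1) y - delannoyPoly n y)) := by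
  induction n with
  | zero =>
    have h0 : delannoyPoly 0 y = 1 := by simp [delannoyPoly]
    have h1 : delannoyPoly 1 y = 1 + 2 * y := by
      simp [delannoyPoly, sum_range_succ]
    have h2 : 2 * (1 + 2 * y) = 1 := by linear_combination hy
    rw [sum_range_one, h0, h1]
    push_cast
    linear_combination (1 + 4 * y) * hy
  | succ n ih =>
    rw [sum_range_succ, ih]
    have hr := delannoy_rec n y
    have h2 : 2 * (1 + 2 * y) = 1 := by linear_combination hy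
    set u := delannoyPoly n y
    set v := delannoyPoly (n + 1) y
    set w := delannoyPoly (n + 2) y
    have hw : 2 * (((n : R) + 2) * w) = (2 * (n : R) + 3) * v - 2 * ((n : R) + 1) * u := by
      linear_combination 2 * hr + (2 * (n : R) + 3) * v * h2
    push_cast
    have : n + 1 + 1 = n + 2 := by ring
    rw [this]
    have key : 4 * ((n : R) + 2) ^ 2 * (v * w * (w - v))
      = v * (((2 * (n : R) + 3) * v - 2 * ((n : R) + 1) * u)) *
        (((2 * (n : R) + 3) * v - 2 * ((n : R) + 1) * u) - 2 * ((n : R) + 2) * v) := by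
      rw [← hw]; ring
    have key2 : (4 * ((n : R) + 1 + 1) ^ 2) * (v * w * (w - v))
      = v * (((2 * (n : R) + 3) * v - 2 * ((n : R) + 1) * u)) *
        (((2 * (n : R) + 3) * v - 2 * ((n : R) + 1) * u) - 2 * ((n : R) + 2) * v) := by
      rw [← key]; ring
    rw [mul_assoc ((-1) ^ (n + 2)), key2, pow_succ (-1 : R) (n + 1), pow_succ (-1 : R) n]
    ring

/-! ## The Apery polynomials at `1/4` -/

/-- the coefficient of `x^m` in the alternating sum. -/
def acoef (n m : ℕ) : ℤ := L n (fun k => bet k m * bet k m)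

lemma acoef_eq_zero {n m : ℕ} (h : n ≤ m) : acoef n m = 0 := by
  unfold acoef L
  apply sum_eq_zero
  intro k hk
  have : k < m := lt_of_lt_of_le (mem_range.mp hk) h
  simp [bet_eq_zero this]

lemma acoef_rec (n j : ℕ) :
    ((j : ℤ) + 1) ^ 3 * (((j : ℤ) + 1) * acoef n (j + 1) - (4 * (j : ℤ) + 2) * acoef n j)
      = - (-1) ^ n * ((n : ℤ) * ((n : ℤ) ^ 2 - 3 * ((j : ℤ) + 1) ^ 2) * ((n : ℤ) - j) ^ 2
        * bet n j ^ 2) := by
  induction n with
  | zero => simp [acoef, L]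
  | succ n ih =>
    have hs : ∀ m, acoef (n + 1) m = acoef n m + (2 * (n : ℤ) + 1) * (-1) ^ n *
        (bet n m * bet n m) := by
      intro m
      simp [acoef, L, sum_range_succ]
    rw [hs, hs]
    have hb := bet_succ n j
    have hsh := bet_shift n j
    have e1 : ((j : ℤ) + 1) ^ 3 * (((j : ℤ) + 1) * (acoef n (j + 1) +
        (2 * (n : ℤ) + 1) * (-1) ^ n * (bet n (j + 1) * bet n (j + 1)))
        - (4 * (j : ℤ) + 2) * (acoef n j + (2 * (n : ℤ) + 1) * (-1) ^ n *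
          (bet n j * bet n j)))
        = ((j : ℤ) + 1) ^ 3 * (((j : ℤ) + 1) * acoef n (j + 1) -
            (4 * (j : ℤ) + 2) * acoef n j)
          + (2 * (n : ℤ) + 1) * (-1) ^ n * ((((j : ℤ) + 1) ^ 2 * bet n (j + 1)) ^ 2
          - (4 * (j : ℤ) + 2) * ((j : ℤ) + 1) ^ 3 * bet n j ^ 2) := by ring
    rw [e1, ih, hb]
    have e2 : - (-1 : ℤ) ^ (n + 1) * (((n + 1 : ℕ) : ℤ) * (((n + 1 : ℕ) : ℤ) ^ 2
        - 3 * ((j : ℤ) + 1) ^ 2) * (((n + 1 : ℕ) : ℤ) - j) ^ 2 * bet (n + 1) j ^ 2)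
        = (-1 : ℤ) ^ n * (((n : ℤ) + 1) * (((n : ℤ) + 1) ^ 2
        - 3 * ((j : ℤ) + 1) ^ 2) * (((n : ℤ) + 1 - j) * bet (n + 1) j) ^ 2) := by
      push_cast
      ring
    rw [e2, hsh]
    ring

lemma acoef_diff (n j : ℕ) : ∃ E : ℤ,
    ((j : ℤ) + 1) * acoef n (j + 1) - (4 * (j : ℤ) + 2) * acoef n j = (n : ℤ) ^ 2 * E := by
  rcases n with _ | n
  · exact ⟨0, by simp [acoef, L]⟩
  refine ⟨- (-1) ^ (n + 1) * (((n + 1).choose (j + 1) : ℤ) ^ 2 * ((n + 1 + j).choose j : ℤ)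
      * ((n + 1 + j).choose (j + 1) : ℤ)
      - 3 * (n.choose j : ℤ) * ((n + 1).choose (j + 1) : ℤ) * ((n + 1 + j).choose j : ℤ) ^ 2), ?_⟩
  have h := acoef_rec (n + 1) j
  have h1 := choose_succ_mul (n + 1) j
  have h2 := succ_choose_mul n j
  have h3 := choose_succ_mul (n + 1 + j) j
  push_cast at h h1 h2 h3 ⊢
  have h3' : ((j : ℤ) + 1) * ((n + 1 + j).choose (j + 1) : ℤ)
      = ((n : ℤ) + 1) * ((n + 1 + j).choose j : ℤ) := by linarith
  set a := ((n + 1).choose (j + 1) : ℤ)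
  set b := ((n + 1).choose j : ℤ)
  set c := ((n + 1 + j).choose j : ℤ)
  set d := ((n + 1 + j).choose (j + 1) : ℤ)
  set e := (n.choose j : ℤ)
  have hb : bet (n + 1) j = b * c := rfl
  rw [hb] at h
  have hpos : (((j : ℤ) + 1) ^ 3) ≠ 0 := by positivity
  apply mul_left_cancel₀ hpos
  rw [h]
  have r1 : (((n : ℤ) + 1) - j) ^ 2 * (b * c) ^ 2 = ((((n : ℤ) + 1) - j) * b) ^ 2 * c ^ 2 := by ring
  have r2 : - (-1 : ℤ) ^ (n + 1) * (((n : ℤ) + 1) * (((n : ℤ) + 1) ^ 2 - 3 * ((j : ℤ) + 1) ^ 2)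
      * (((n : ℤ) + 1) - j) ^ 2 * (b * c) ^ 2)
      = - (-1 : ℤ) ^ (n + 1) * (((n : ℤ) + 1) * (((n : ℤ) + 1) ^ 2 - 3 * ((j : ℤ) + 1) ^ 2)
      * ((((n : ℤ) + 1) - j) ^ 2 * (b * c) ^ 2)) := by ring
  rw [r2, r1, ← h1]
  have r3 : ((j : ℤ) + 1) ^ 3 * (((n : ℤ) + 1) ^ 2 * (-(-1) ^ (n + 1) *
      (a ^ 2 * c * d - 3 * e * a * c ^ 2)))
      = - (-1) ^ (n + 1) * ((n : ℤ) + 1) ^ 2 * ((j : ℤ) + 1) ^ 2 *
        (a ^ 2 * c * (((j : ℤ) + 1) * d)) +
        (-1) ^ (n + 1) * ((n : ℤ) + 1) * ((j : ℤ) + 1) ^ 3 *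
        (3 * (((n : ℤ) + 1) * e) * a * c ^ 2) := by ring
  rw [r3, h3', ← h2]
  ring

lemma apery_sum_eq {R : Type*} [CommRing R] (n : ℕ) (y : R) :
    ∑ k ∈ range n, (2 * (k : R) + 1) * (-1) ^ k * aperyPoly k y
      = ∑ m ∈ range n, (acoef n m : R) * y ^ m := by
  have h1 : ∀ k ∈ range n, aperyPoly k y = ∑ m ∈ range n, ((bet k m * bet k m : ℤ) : R) * y ^ m := by
    intro k hk
    have hk' := mem_range.mp hk
    unfold aperyPoly
    have hsub : range (k + 1) ⊆ range n := by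
      intro i hi
      have := mem_range.mp hi
      exact mem_range.mpr (by omega)
    rw [← sum_subset hsub]
    · apply sum_congr rfl
      intro m _
      simp only [bet]
      push_cast
      ring
    · intro m _ hm
      have : k < m := by
        simpa [mem_range] using hm
      simp [bet_eq_zero this]
  rw [sum_congr rfl (fun k hk => by rw [h1 k hk])]
  simp only [mul_sum]
  rw [sum_comm]
  apply sum_congr rfl
  intro m _
  simp only [acoef, L]
  push_cast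
  rw [sum_mul]
  apply sum_congr rfl
  intro k _
  ring

lemma apery_special {R : Type*} [CommRing R] (y : R) (hy : 4 * y = 1) (n : ℕ) :
    ∃ c : R, ∑ k ∈ range n, (2 * (k : R) + 1) * (-1) ^ k * aperyPoly k y = (n : R) ^ 2 * c := by
  choose E hE using acoef_diff n
  refine ⟨- 2 * ∑ j ∈ range n, y ^ (j + 1) * (E j : R), ?_⟩
  rw [apery_sum_eq]
  set S := ∑ m ∈ range n, (acoef n m : R) * y ^ m
  have h1 : ∑ j ∈ range n, y ^ (j + 1) * (((j : R) + 1) * (acoef n (j + 1) : R)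
      - (4 * (j : R) + 2) * (acoef n j : R)) = (n : R) ^ 2 * ∑ j ∈ range n, y ^ (j + 1) * (E j : R) := by
    rw [mul_sum]
    apply sum_congr rfl
    intro j _
    have := congrArg (fun z : ℤ => (z : R)) (hE j)
    push_cast at this
    rw [this]
    ring
  have h2 : ∑ j ∈ range n, y ^ (j + 1) * (((j : R) + 1) * (acoef n (j + 1) : R)
      - (4 * (j : R) + 2) * (acoef n j : R)) = - (2 * y * S) := by
    have h3 : ∀ j ∈ range n, y ^ (j + 1) * (((j : R) + 1) * (acoef n (j + 1) : R)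
      - (4 * (j : R) + 2) * (acoef n j : R))
      = ((((j + 1 : ℕ) : R) * (acoef n (j + 1) : R) * y ^ (j + 1))
          - ((j : R) * (acoef n j : R) * y ^ j)) - 2 * y * ((acoef n j : R) * y ^ j) := by
      intro j _
      push_cast
      have : y ^ (j + 1) * ((4 * (j : R) + 2) * (acoef n j : R))
        = (4 * y) * ((j : R) * (acoef n j : R) * y ^ j) + 2 * y * ((acoef n j : R) * y ^ j) := by
        ring
      rw [mul_sub, this, hy]
      ring
    rw [sum_congr rfl h3, sum_sub_distrib,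
      sum_range_sub (fun j => ((j : R) * (acoef n j : R) * y ^ j)), ← mul_sum,
      acoef_eq_zero (le_refl n)]
    simp
    rfl
  have h4 : S = - 2 * (- (2 * y * S)) := by
    linear_combination (-S) * hy
  rw [h4, ← h2, h1]
  ring

end Pool.Agent.Work.MP_2869d0_nt
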