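import Mathlib
import Pool.Agent.Work.MP_2869d0_nt.Special

set_option autoImplicit false

open Finset Polynomial

namespace Pool.Agent.Work.MP_2869d0_nt

variable {p : ℕ} [hp : Fact p.Prime]

lemma val_nonneg (x : ℤ_[p]) : 0 ≤ Padic.addValuation (x : ℚ_[p]) := by
  by_cases hx : (x : ℚ_[p]) = 0
  · rw [hx, AddValuation.map_zero]
    exact le_top
  · rw [Padic.addValuation.apply hx]
    have := PadicInt.valuation_coe_nonneg (x := x)
    exact_mod_cast this

lemma val_le_of_dvd {a b : ℤ_[p]} (h : a ∣ b) :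
    Padic.addValuation (a : ℚ_[p]) ≤ Padic.addValuation (b : ℚ_[p]) := by
  obtain ⟨c, rfl⟩ := h
  rw [PadicInt.coe_mul, AddValuation.map_mul]
  exact le_add_of_nonneg_right (val_nonneg c)

lemma val_final (n : ℕ) (F : ℤ[X]) (x y : ℤ_[p]) (hy : (n : ℤ_[p]) ∣ Polynomial.aeval y F) :
    min (Padic.addValuation (n : ℚ_[p])) (Padic.addValuation ((x - y : ℤ_[p]) : ℚ_[p]))
      ≤ Padic.addValuation ((Polynomial.aeval x F : ℤ_[p]) : ℚ_[p]) := by
  have h1 : (x - y) ∣ Polynomial.aeval x F - Polynomial.aeval y F := by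
    have := Polynomial.sub_dvd_eval_sub x y (F.map (algebraMap ℤ ℤ_[p]))
    rwa [← Polynomial.eval₂_eq_eval_map, ← Polynomial.eval₂_eq_eval_map,
      ← Polynomial.aeval_def, ← Polynomial.aeval_def] at this
  have h2 : ((Polynomial.aeval x F : ℤ_[p]) : ℚ_[p])
      = ((Polynomial.aeval y F : ℤ_[p]) : ℚ_[p])
        + ((Polynomial.aeval x F - Polynomial.aeval y F : ℤ_[p]) : ℚ_[p]) := by
    push_cast
    ring
  rw [h2]
  refine le_trans (min_le_min ?_ ?_) (AddValuation.map_add _ _ _)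
  · have := val_le_of_dvd hy
    simpa using this
  · exact val_le_of_dvd h1

lemma isUnit_four (hp2 : p ≠ 2) : IsUnit (4 : ℤ_[p]) := by
  have hcop : ¬ (p ∣ 4) := by
    intro h
    have h' : p ∣ 2 ^ 2 := by simpa using h
    have := (Nat.prime_dvd_prime_iff_eq hp.out Nat.prime_two).mp (hp.out.dvd_of_dvd_pow h')
    exact hp2 this
  have h : ((4 : ℕ) : ℤ_[p]) = 4 := by norm_num
  rw [← h, PadicInt.isUnit_iff, PadicInt.norm_natCast_eq_one_iff]
  exact (Nat.Prime.coprime_iff_not_dvd hp.out).mpr hcop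

lemma exists_quarter (hp2 : p ≠ 2) : ∃ y : ℤ_[p], 4 * y = 1 := by
  obtain ⟨u, hu⟩ := isUnit_four (p := p) hp2
  exact ⟨(u⁻¹ : ℤ_[p]ˣ), by rw [← hu]; simp⟩

lemma val_isUnit {a : ℤ_[p]} (ha : IsUnit a) : Padic.addValuation (a : ℚ_[p]) = 0 := by
  apply le_antisymm
  · have : a ∣ 1 := isUnit_iff_dvd_one.mp ha
    have h := val_le_of_dvd this
    simpa using h
  · exact val_nonneg a

lemma coe_four : ((4 : ℤ_[p]) : ℚ_[p]) = 4 := map_ofNat PadicInt.Coe.ringHom 4

/-- The general statement behind both questions: `c = 1` or `c = -1`. -/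
lemma val_main (n : ℕ) (hn : 0 < n) (F : ℤ[X]) (S : ℤ_[p] → ℤ_[p]) (c : ℤ) (hc : IsUnit c)
    (hS : ∀ x, S x = (n : ℤ_[p]) * Polynomial.aeval x F)
    (hsp : ∀ y : ℤ_[p], 4 * y = c → ∃ d, S y = (n : ℤ_[p]) ^ 2 * d) (x : ℤ_[p]) :
    min (Padic.addValuation (n : ℚ_[p])) (Padic.addValuation (4 * (x : ℚ_[p]) - (c : ℚ_[p])))
      ≤ Padic.addValuation ((1 / (n : ℚ_[p])) * (S x : ℚ_[p])) := by
  have hn0 : (n : ℤ_[p]) ≠ 0 := by exact_mod_cast hn.ne'
  have hn0' : (n : ℚ_[p]) ≠ 0 := by exact_mod_cast hn.ne'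
  have hx : (1 / (n : ℚ_[p])) * (S x : ℚ_[p]) = ((Polynomial.aeval x F : ℤ_[p]) : ℚ_[p]) := by
    rw [hS x]
    push_cast
    field_simp
  rw [hx]
  by_cases hp2 : p = 2
  · -- the right side is at most zero
    have hu : IsUnit (4 * x - (c : ℤ_[p])) := by
      have h4 : ¬ IsUnit (4 * x : ℤ_[p]) := by
        intro h
        have h2 : IsUnit (4 : ℤ_[p]) := isUnit_of_mul_isUnit_left h
        have h' : ((4 : ℕ) : ℤ_[p]) = 4 := by norm_num
        rw [← h', PadicInt.isUnit_iff, PadicInt.norm_natCast_eq_one_iff] at h2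
        subst hp2
        revert h2
        decide
      have hcu : IsUnit (c : ℤ_[p]) := by
        have := hc.map (Int.castRingHom ℤ_[p])
        simpa using this
      by_contra hnot
      have hm1 : 4 * x ∈ IsLocalRing.maximalIdeal ℤ_[p] := by
        rw [IsLocalRing.mem_maximalIdeal]; exact h4
      have hm2 : 4 * x - (c : ℤ_[p]) ∈ IsLocalRing.maximalIdeal ℤ_[p] := by
        rw [IsLocalRing.mem_maximalIdeal]; exact hnot
      have hm3 : (c : ℤ_[p]) ∈ IsLocalRing.maximalIdeal ℤ_[p] := by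
        have := Ideal.sub_mem _ hm1 hm2
        simpa using this
      rw [IsLocalRing.mem_maximalIdeal] at hm3
      exact hm3 hcu
    have hv := val_isUnit hu
    have hv' : Padic.addValuation (4 * (x : ℚ_[p]) - (c : ℚ_[p])) = 0 := by
      have : (4 * (x : ℚ_[p]) - (c : ℚ_[p])) = ((4 * x - (c : ℤ_[p]) : ℤ_[p]) : ℚ_[p]) := by
        push_cast
        rw [coe_four]
      rw [this, hv]
    rw [hv']
    exact le_trans (min_le_right _ _) (val_nonneg _)
  · obtain ⟨y0, hy0⟩ := exists_quarter (p := p) hp2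
    have hy : 4 * ((c : ℤ_[p]) * y0) = (c : ℤ_[p]) := by
      calc 4 * ((c : ℤ_[p]) * y0) = (c : ℤ_[p]) * (4 * y0) := by ring
        _ = c := by rw [hy0, mul_one]
    obtain ⟨d, hd⟩ := hsp _ hy
    have hdiv : (n : ℤ_[p]) ∣ Polynomial.aeval ((c : ℤ_[p]) * y0) F := by
      refine ⟨d, ?_⟩
      apply mul_left_cancel₀ hn0
      rw [← hS, hd]
      ring
    have key := val_final n F x _ hdiv
    have hval : Padic.addValuation (4 * (x : ℚ_[p]) - (c : ℚ_[p]))
        = Padic.addValuation (((x - (c : ℤ_[p]) * y0 : ℤ_[p])) : ℚ_[p]) := by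
      have h1 : (4 * (x : ℚ_[p]) - (c : ℚ_[p]))
          = ((4 : ℤ_[p]) : ℚ_[p]) * (((x - (c : ℤ_[p]) * y0 : ℤ_[p])) : ℚ_[p]) := by
        have h2 := congrArg (fun z : ℤ_[p] => (z : ℚ_[p])) hy
        push_cast at h2 ⊢
        rw [coe_four] at h2 ⊢
        linear_combination h2
      rw [h1, AddValuation.map_mul, val_isUnit (isUnit_four (p := p) hp2), zero_add]
    rw [hval]
    exact key

lemma eval_weighted {R : Type*} [CommRing R] (n : ℕ) (P : ℕ → ℤ[X]) (F : ℤ[X])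
    (h : ∑ k ∈ range n, (2 * (k : ℤ[X]) + 1) * (-1) ^ k * P k = (n : ℤ[X]) * F) (x : R) :
    ∑ k ∈ range n, (2 * (k : R) + 1) * (-1) ^ k * Polynomial.aeval x (P k)
      = (n : R) * Polynomial.aeval x F := by
  have := congrArg (Polynomial.aeval (R := ℤ) x) h
  have h2 : (Polynomial.aeval (R := ℤ) x) (2 : ℤ[X]) = (2 : R) := map_ofNat _ 2
  simpa [map_sum, map_mul, map_pow, h2] using this

end Pool.Agent.Work.MP_2869d0_nt
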